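import Pool.Agent.X329.Helly.Glue

/-!
# Zariski closed subgroups of diagonal groups and their characters
-/

set_option autoImplicit false

namespace Pool.Agent.X329.Helly

open MvPolynomial

variable {K : Type} [Field K] {N : ℕ}

/-- The diagonal group `(Kˣ)^N`. -/
def Diag (K : Type) [Field K] (N : ℕ) : Type := Fin N → Kˣ

/-- The group structure of `(Kˣ)^N`. -/
instance instDiag : CommGroup (Diag K N) := inferInstanceAs (CommGroup (Fin N → Kˣ))

/-- The value of a polynomial at a point of the diagonal group `(Kˣ)^N`. -/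
noncomputable def ev (f : MvPolynomial (Fin N) K) (x : Diag K N) : K :=
  eval (fun i => (x i : K)) f

/-- The Zariski closed subsets of the diagonal group `(Kˣ)^N`: the zero sets of polynomials. -/
def ZariskiClosed (Z : Set (Diag K N)) : Prop :=
  ∃ S : Set (MvPolynomial (Fin N) K), Z = {x | ∀ f ∈ S, ev f x = 0}

theorem mon_one' (m : Fin N → ℤ) : ∏ i, (1 : Fin N → Kˣ) i ^ m i = 1 := by simp

theorem mon_mul' (m : Fin N → ℤ) (x y : Fin N → Kˣ) :
    ∏ i, (x * y) i ^ m i = (∏ i, x i ^ m i) * ∏ i, y i ^ m i := by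
  simp [mul_zpow, Finset.prod_mul_distrib]

/-- The character `x ↦ ∏ i, x i ^ m i` of the diagonal group. -/
def mon (m : Fin N → ℤ) : Diag K N →* Kˣ where
  toFun x := ∏ i, x i ^ m i
  map_one' := mon_one' m
  map_mul' := mon_mul' m

theorem mon_apply (m : Fin N → ℤ) (x : Diag K N) : mon m x = ∏ i, x i ^ m i := rfl

theorem mon_add (m m' : Fin N → ℤ) (x : Diag K N) : mon (m + m') x = mon m x * mon m' x := by
  simp [mon_apply, zpow_add, Finset.prod_mul_distrib]

theorem mon_neg (m : Fin N → ℤ) (x : Diag K N) : mon (-m) x = (mon m x)⁻¹ := by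
  simp [mon_apply, Finset.prod_inv_distrib]

/-- the exponent of a monomial -/
def expo (m : Fin N →₀ ℕ) : Fin N → ℤ := fun i => (m i : ℤ)

theorem ev_eq (f : MvPolynomial (Fin N) K) (x : Diag K N) :
    ev f x = ∑ m ∈ f.support, f.coeff m * (mon (expo m) x : Kˣ) := by
  rw [ev, eval_eq']
  refine Finset.sum_congr rfl fun m _ => ?_
  rw [mon_apply]
  push_cast
  simp [expo]

/-- the restriction of a character to a subgroup, with values in the field -/
def res (H : Subgroup (Diag K N)) (m : Fin N → ℤ) : H →* K :=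
  (Units.coeHom K).comp ((mon m).comp H.subtype)

theorem res_apply (H : Subgroup (Diag K N)) (m : Fin N → ℤ) (h : H) :
    res H m h = ((mon m (h : Diag K N) : Kˣ) : K) := rfl

/-- **Closed subgroups are defined by characters.** -/
theorem mem_of_mon {H : Subgroup (Diag K N)} (hH : ZariskiClosed (H : Set (Diag K N)))
    {y : Diag K N} (hy : ∀ m : Fin N → ℤ, (∀ h ∈ H, mon m h = 1) → mon m y = 1) : y ∈ H := by
  classical
  obtain ⟨S, hS⟩ := hH
  have h0 : y ∈ (H : Set (Diag K N)) := by
    rw [hS]
    intro f hf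
    -- characters with the same restriction take the same value at `y`
    have hval : ∀ m m' : Fin N → ℤ, res H m = res H m' → mon m y = mon m' y := by
      intro m m' h
      have h1 : mon (m - m') y = 1 := by
        refine hy _ fun h' hh' => ?_
        rw [sub_eq_add_neg, mon_add, mon_neg]
        have h2 := DFunLike.congr_fun h ⟨h', hh'⟩
        rw [res_apply, res_apply] at h2
        rw [Units.ext h2, mul_inv_cancel]
      rw [sub_eq_add_neg, mon_add, mon_neg] at h1
      exact mul_inv_eq_one.1 h1
    let η : (H →* K) → K := fun χ =>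
      if h : ∃ m : Fin N → ℤ, res H m = χ then ((mon h.choose y : Kˣ) : K) else 0
    have hη : ∀ m, η (res H m) = (mon m y : Kˣ) := by
      intro m
      have hex : ∃ m' : Fin N → ℤ, res H m' = res H m := ⟨m, rfl⟩
      rw [show η (res H m) = ((mon hex.choose y : Kˣ) : K) from dif_pos hex]
      rw [hval _ _ hex.choose_spec]
    let l : (H →* K) →₀ K := ∑ m ∈ f.support, Finsupp.single (res H (expo m)) (f.coeff m)
    have hli := linearIndependent_monoidHom H K
    have hl : l = 0 := by
      refine linearIndependent_iff.1 hli l ?_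
      funext h
      rw [map_sum, Finset.sum_apply]
      simp only [Finsupp.linearCombination_single, Pi.smul_apply, smul_eq_mul, Pi.zero_apply]
      have h1 : (h : Diag K N) ∈ (H : Set (Diag K N)) := h.2
      rw [hS] at h1
      rw [← h1 f hf, ev_eq]
      rfl
    have h1 := congrArg (Finsupp.linearCombination K η) hl
    rw [map_sum, map_zero] at h1
    simp only [Finsupp.linearCombination_single, smul_eq_mul, hη] at h1
    rw [ev_eq]
    exact h1
  exact h0

/-- The homomorphisms `A → B`. -/
def HomG (A B : Type) [Group A] [CommGroup B] : Type := A →* B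

/-- The group structure of `HomG A B`: multiplication of values. -/
instance instHomG (A B : Type) [Group A] [CommGroup B] : CommGroup (HomG A B) :=
  inferInstanceAs (CommGroup (A →* B))

/-- The homomorphisms `G → Kˣ`. -/
def Hom (G : Subgroup (Diag K N)) : Type := HomG G Kˣ

/-- The group structure of `Hom G`. -/
instance instHom (G : Subgroup (Diag K N)) : CommGroup (Hom G) := instHomG G Kˣ

/-- `χ` as a homomorphism. -/
def Hom.hom {G : Subgroup (Diag K N)} (χ : Hom G) : G →* Kˣ := χ

theorem Hom.ext {G : Subgroup (Diag K N)} {χ ψ : Hom G} (h : ∀ g, χ.hom g = ψ.hom g) : χ = ψ :=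
  MonoidHom.ext h

/-- The homomorphism `χ : G → Kˣ` is a morphism of algebraic groups: `χ` is the restriction of the
quotient of a polynomial by a power of the product of the coordinates. -/
def Regular {G : Subgroup (Diag K N)} (χ : Hom G) : Prop :=
  ∃ (f : MvPolynomial (Fin N) K) (k : ℕ), ∀ g : G,
    (χ.hom g : Kˣ) * ev (∏ i, .X i) (g : Diag K N) ^ k = ev f (g : Diag K N)

theorem prod_eq_mon (k : ℕ) (g : Diag K N) :
    (ev (∏ i, .X i) g : K) ^ k = ((mon (fun _ => (k : ℤ)) g : Kˣ) : K) := by
  rw [mon_apply, ev, map_prod]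
  push_cast
  rw [← Finset.prod_pow]
  simp

/-- the restriction of a monomial as a homomorphism -/
def monH (G : Subgroup (Diag K N)) (m : Fin N → ℤ) : Hom G := (mon m).comp G.subtype

theorem monH_apply (G : Subgroup (Diag K N)) (m : Fin N → ℤ) (g : G) :
    (monH G m).hom g = mon m (g : Diag K N) := rfl

theorem regular_mon (G : Subgroup (Diag K N)) (m : Fin N → ℤ) : Regular (monH G m) := by
  classical
  obtain ⟨k, hk⟩ : ∃ k : ℕ, ∀ i, 0 ≤ m i + k := by
    refine ⟨∑ i, (m i).natAbs, fun i => ?_⟩
    have h1 : (m i).natAbs ≤ ∑ i, (m i).natAbs :=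
      Finset.single_le_sum (f := fun i => (m i).natAbs) (fun _ _ => Nat.zero_le _)
        (Finset.mem_univ i)
    omega
  let e : Fin N →₀ ℕ := Finsupp.equivFunOnFinite.symm fun i => (m i + k).toNat
  refine ⟨monomial e 1, k, fun g => ?_⟩
  rw [prod_eq_mon, ev, eval_monomial, one_mul, Finsupp.prod_fintype _ _ (fun i => pow_zero _)]
  have h1 : expo e = m + fun _ => (k : ℤ) := by
    funext i
    simp only [expo, e, Finsupp.equivFunOnFinite_symm_apply_apply, Pi.add_apply]
    exact Int.toNat_of_nonneg (hk i)
  have h2 : (∏ i, ((g : Diag K N) i : K) ^ e i) = ((mon (expo e) (g : Diag K N) : Kˣ) : K) := by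
    rw [mon_apply]
    push_cast
    simp [expo]
  rw [h2, h1, mon_add]
  push_cast
  rfl

theorem Regular.eq_mon {G : Subgroup (Diag K N)} {χ : Hom G} (h : Regular χ) :
    ∃ m : Fin N → ℤ, χ = monH G m := by
  classical
  obtain ⟨f, k, hf⟩ := h
  let χ' : G →* K := (Units.coeHom K).comp χ.hom * res G (fun _ => (k : ℤ))
  have h1 : ∃ m ∈ f.support, res G (expo m) = χ' := by
    by_contra hcon
    push Not at hcon
    let l : (G →* K) →₀ K := Finsupp.single χ' 1 -
      ∑ m ∈ f.support, Finsupp.single (res G (expo m)) (f.coeff m)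
    have hl : l = 0 := by
      refine linearIndependent_iff.1 (linearIndependent_monoidHom G K) l ?_
      funext g
      rw [map_sub, map_sum]
      simp only [Finsupp.linearCombination_single, one_smul, Pi.sub_apply, Pi.zero_apply,
        Finset.sum_apply, Pi.smul_apply, smul_eq_mul]
      have h2 := hf g
      rw [prod_eq_mon, ev_eq f] at h2
      rw [sub_eq_zero]
      exact h2
    have h2 := DFunLike.congr_fun hl χ'
    rw [Finsupp.sub_apply, Finsupp.single_eq_same, Finsupp.finsetSum_apply,
      Finset.sum_eq_zero fun m hm => Finsupp.single_eq_of_ne (hcon m hm).symm] at h2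
    simp at h2
  obtain ⟨m, -, hm⟩ := h1
  refine ⟨expo m + fun _ => -(k : ℤ), Hom.ext fun g => ?_⟩
  have h2 := DFunLike.congr_fun hm g
  rw [res_apply] at h2
  have h3 : ((mon (expo m) (g : Diag K N) : Kˣ) : K) =
      ((χ.hom g * mon (fun _ => (k : ℤ)) (g : Diag K N) : Kˣ) : K) := by
    rw [h2]
    push_cast
    rfl
  have h4 := Units.ext h3
  have h6 : (fun _ : Fin N => -(k : ℤ)) = -(fun _ => (k : ℤ)) := rfl
  rw [monH_apply, mon_add, h6, mon_neg, h4, mul_inv_cancel_right]

theorem Regular.mul {G : Subgroup (Diag K N)} {χ ψ : Hom G} (hχ : Regular χ)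
    (hψ : Regular ψ) : Regular (χ * ψ) := by
  obtain ⟨m, rfl⟩ := hχ.eq_mon
  obtain ⟨m', rfl⟩ := hψ.eq_mon
  have h : monH G m * monH G m' = monH G (m + m') :=
    Hom.ext fun g => (mon_add m m' (g : Diag K N)).symm
  rw [h]
  exact regular_mon G _

theorem Regular.one (G : Subgroup (Diag K N)) : Regular (1 : Hom G) := by
  have h : (1 : Hom G) = monH G 0 := Hom.ext fun g => by
    rw [monH_apply, mon_apply]
    simp only [Pi.zero_apply, zpow_zero, Finset.prod_const_one]
    rfl
  rw [h]
  exact regular_mon G _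

theorem Regular.inv {G : Subgroup (Diag K N)} {χ : Hom G} (hχ : Regular χ) :
    Regular χ⁻¹ := by
  obtain ⟨m, rfl⟩ := hχ.eq_mon
  have h : (monH G m)⁻¹ = monH G (-m) := Hom.ext fun g => (mon_neg m (g : Diag K N)).symm
  rw [h]
  exact regular_mon G _

/-- **The character group** `X(G)`, as a subgroup of `Hom G`: the morphisms of algebraic groups
`G → Kˣ`. -/
def XG (G : Subgroup (Diag K N)) : Subgroup (Hom G) where
  carrier := {χ | Regular χ}
  mul_mem' := Regular.mul
  one_mem' := Regular.one G
  inv_mem' := Regular.inv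

/-- **The character group** `X(G)`. -/
def X (G : Subgroup (Diag K N)) : Type := XG G

/-- The group structure of `X(G)`. -/
instance instX (G : Subgroup (Diag K N)) : CommGroup (X G) := inferInstanceAs (CommGroup (XG G))

/-- the value of a character -/
def X.app {G : Subgroup (Diag K N)} (χ : X G) : G →* Kˣ := Subtype.val (p := (· ∈ XG G)) χ

theorem X.ext {G : Subgroup (Diag K N)} {χ ψ : X G} (h : ∀ g, χ.app g = ψ.app g) : χ = ψ :=
  Subtype.ext (Hom.ext h)

/-- the restriction of a monomial as an element of `X(G)` -/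
def monX (G : Subgroup (Diag K N)) (m : Fin N → ℤ) : X G :=
  (⟨monH G m, regular_mon G m⟩ : XG G)

theorem monX_app (G : Subgroup (Diag K N)) (m : Fin N → ℤ) (g : G) :
    (monX G m).app g = mon m (g : Diag K N) := rfl

theorem exists_monX (G : Subgroup (Diag K N)) (χ : X G) : ∃ m, χ = monX G m := by
  obtain ⟨m, hm⟩ := Regular.eq_mon (show XG G from χ).2
  exact ⟨m, Subtype.ext hm⟩

/-- the evaluation at a point -/
def evH (G : Subgroup (Diag K N)) (g : G) : X G →* Kˣ where
  toFun χ := χ.app g
  map_one' := rfl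
  map_mul' _ _ := rfl

theorem monX_eq_prod (G : Subgroup (Diag K N)) (m : Fin N → ℤ) :
    monX G m = ∏ i, monX G (Pi.single i 1) ^ m i := by
  refine X.ext fun g => ?_
  change evH G g (monX G m) = evH G g (∏ i, monX G (Pi.single i 1) ^ m i)
  rw [map_prod]
  change mon m (g : Diag K N) = _
  rw [mon_apply]
  refine Finset.prod_congr rfl fun i _ => ?_
  rw [map_zpow]
  change _ = (mon (Pi.single i 1) (g : Diag K N)) ^ m i
  rw [mon_apply, Finset.prod_eq_single i]
  · simp
  · intro j _ hj
    simp [Pi.single_eq_of_ne hj]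
  · intro h; exact absurd (Finset.mem_univ _) h

/-- The character group is finitely generated. -/
theorem closure_coords (G : Subgroup (Diag K N)) :
    Subgroup.closure (Set.range fun i : Fin N => monX G (Pi.single i 1)) = ⊤ := by
  rw [eq_top_iff]
  intro χ _
  obtain ⟨m, rfl⟩ := exists_monX G χ
  rw [monX_eq_prod]
  exact Subgroup.prod_mem _ fun i _ => Subgroup.zpow_mem _
    (Subgroup.subset_closure (Set.mem_range_self (f := fun i : Fin N => monX G (Pi.single i 1)) i)) _

end Pool.Agent.X329.Helly
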