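import Mathlib

/-!
# Gluing homomorphisms from subgroups of a finitely generated abelian group

Let `X` be an abelian group with `r` generators, `A i` finitely many subgroups and `c i : A i → D`
homomorphisms to a divisible group. If any `r + 1` of the `c i` have a common extension to `X`, then
all of them have a common extension.
-/

set_option autoImplicit false

namespace Pool.Agent.X329.Helly

open Module

/-- Among `r + 1` elements of an abelian group with `r` generators there is a relation whose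
coefficients are not all divisible by the prime `p`. -/
theorem dep {X : Type} [AddCommGroup X] {r : ℕ} {e : Fin r → X}
    (he : Submodule.span ℤ (Set.range e) = ⊤) {p : ℕ} (hp : p.Prime) (a : Fin (r + 1) → X) :
    ∃ ν : Fin (r + 1) → ℤ, ∑ j, ν j • a j = 0 ∧ ∃ j, ¬ (p : ℤ) ∣ ν j := by
  classical
  have : Fact p.Prime := ⟨hp⟩
  let π : (Fin r → ℤ) →ₗ[ℤ] X := Fintype.linearCombination ℤ e
  have hπ : Function.Surjective π := by
    rw [← LinearMap.range_eq_top, Fintype.range_linearCombination, he]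
  choose at' hat using fun j => hπ (a j)
  let B : Submodule ℤ (Fin r → ℤ) := Submodule.span ℤ (Set.range at') ⊔ LinearMap.ker π
  have hmem : ∀ j, at' j ∈ B := fun j =>
    Submodule.mem_sup_left (Submodule.subset_span ⟨j, rfl⟩)
  let b := Module.finBasis ℤ B
  have hs : finrank ℤ B ≤ r := by
    have h1 := Submodule.finrank_le B
    rwa [Module.finrank_fintype_fun_eq_card, Fintype.card_fin] at h1
  let v : Fin (r + 1) → (Fin (finrank ℤ B) → ZMod p) := fun j k =>
    ((b.repr ⟨at' j, hmem j⟩ k : ℤ) : ZMod p)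
  have hv : ¬ LinearIndependent (ZMod p) v := by
    intro h
    have h1 := h.fintype_card_le_finrank
    rw [Fintype.card_fin, Module.finrank_fintype_fun_eq_card, Fintype.card_fin] at h1
    omega
  obtain ⟨g, hg, j0, hj0⟩ := Fintype.not_linearIndependent_iff.1 hv
  -- lift the coefficients
  choose ν hν using fun j => ZMod.intCast_surjective (g j)
  have hdiv : ∀ k, ∃ q : ℤ, ∑ j, ν j * b.repr ⟨at' j, hmem j⟩ k = p * q := by
    intro k
    have h1 := congrFun hg k
    rw [Finset.sum_apply, Pi.zero_apply] at h1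
    have h2 : ((∑ j, ν j * b.repr ⟨at' j, hmem j⟩ k : ℤ) : ZMod p) = 0 := by
      push_cast
      refine (Finset.sum_congr rfl fun j _ => ?_).trans h1
      rw [hν j]
      rfl
    exact (ZMod.intCast_zmod_eq_zero_iff_dvd _ p).1 h2
  choose q hq using hdiv
  let y : B := ∑ k, q k • b k
  have hy : ∑ j, ν j • (⟨at' j, hmem j⟩ : B) = (p : ℤ) • y := by
    apply b.repr.injective
    ext k
    rw [map_sum, Finsupp.finsetSum_apply, map_smul, Finsupp.smul_apply]
    have h1 : b.repr y k = q k := by
      rw [show y = ∑ k, q k • b k from rfl, b.repr_sum_self]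
    rw [h1, smul_eq_mul, ← hq k]
    refine Finset.sum_congr rfl fun j _ => ?_
    rw [map_smul, Finsupp.smul_apply, smul_eq_mul]
  obtain ⟨y1, hy1, l, hl, hyl⟩ := Submodule.mem_sup.1 y.2
  obtain ⟨μ, hμ⟩ := (Submodule.mem_span_range_iff_exists_fun ℤ).1 hy1
  refine ⟨fun j => ν j - p * μ j, ?_, j0, ?_⟩
  · have h1 := congrArg (fun z : B => π (z : Fin r → ℤ)) hy
    simp only [Submodule.coe_sum, Submodule.coe_smul, map_sum, map_smul] at h1
    rw [← hyl, ← hμ, map_add, LinearMap.mem_ker.1 hl, add_zero, map_sum, Finset.smul_sum] at h1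
    simp only [map_smul, hat] at h1
    have h2 : ∀ j, (ν j - p * μ j) • a j = ν j • a j - (p : ℤ) • μ j • a j := fun j => by
      rw [sub_smul, mul_smul]
    rw [Finset.sum_congr rfl fun j _ => h2 j, Finset.sum_sub_distrib, h1, sub_self]
  · intro h
    apply hj0
    rw [← hν j0]
    rw [ZMod.intCast_zmod_eq_zero_iff_dvd]
    have h3 : ν j0 = (ν j0 - p * μ j0) + p * μ j0 := by ring
    rw [h3]
    exact dvd_add h (dvd_mul_right _ _)

/-- the same for a family with a finite set of `r + 1` indices -/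
theorem dep' {X : Type} [AddCommGroup X] {r : ℕ} {e : Fin r → X}
    (he : Submodule.span ℤ (Set.range e) = ⊤) {p : ℕ} (hp : p.Prime) {ι : Type} [Fintype ι]
    [DecidableEq ι] (J : Finset ι) (hJ : J.card = r + 1) (a : ι → X) :
    ∃ ν : ι → ℤ, (∀ i, i ∉ J → ν i = 0) ∧ ∑ i, ν i • a i = 0 ∧ ∃ i ∈ J, ¬ (p : ℤ) ∣ ν i := by
  let σ : Fin (r + 1) ≃ J := (J.equivFinOfCardEq hJ).symm
  obtain ⟨ν, h1, j0, h2⟩ := dep he hp (fun j => a (σ j))
  let ν' : ι → ℤ := fun i => if h : i ∈ J then ν (σ.symm ⟨i, h⟩) else 0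
  have hν' : ∀ j, ν' (σ j) = ν j := fun j => by
    simp [ν', (σ j).2]
  refine ⟨ν', fun i hi => dif_neg hi, ?_, σ j0, (σ j0).2, by rwa [hν']⟩
  rw [← Finset.sum_subset (Finset.subset_univ J)
    (fun i _ hi => by rw [show ν' i = 0 from dif_neg hi, zero_smul])]
  rw [← Finset.sum_coe_sort J, ← σ.sum_comp]
  rw [← h1]
  exact Finset.sum_congr rfl fun j _ => by rw [hν']

/-- **Gluing.** -/
theorem glue {X D : Type} [AddCommGroup X] [AddCommGroup D] [DivisibleBy D ℤ] {r : ℕ}
    {e : Fin r → X} (he : Submodule.span ℤ (Set.range e) = ⊤) {ι : Type} [Fintype ι]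
    (A : ι → Submodule ℤ X) (c : ∀ i, A i →ₗ[ℤ] D)
    (h : ∀ J : Finset ι, J.card ≤ r + 1 → ∃ φ : X →ₗ[ℤ] D, ∀ i ∈ J, ∀ a : A i, φ a = c i a) :
    ∃ φ : X →ₗ[ℤ] D, ∀ i, ∀ a : A i, φ a = c i a := by
  classical
  let Φ : (∀ i, A i) →ₗ[ℤ] X := ∑ i, (A i).subtype.comp (LinearMap.proj i)
  let F : (∀ i, A i) →ₗ[ℤ] D := ∑ i, (c i).comp (LinearMap.proj i)
  have hΦ : ∀ a, Φ a = ∑ i, (a i : X) := fun a => by simp [Φ]
  have hF : ∀ a, F a = ∑ i, c i (a i) := fun a => by simp [F]
  have key : ∀ n : ℕ, ∀ a : ∀ i, A i, Φ a = 0 → (Finset.univ.filter fun i => a i ≠ 0).card = n →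
      F a = 0 := by
    intro n
    induction n using Nat.strong_induction_on with
    | _ n ih =>
      intro a ha hn
      rcases Nat.lt_or_ge (r + 1) n with hlt | hle
      · by_contra hFa
        obtain ⟨p, hp, hpd⟩ := Nat.exists_prime_and_dvd (n := addOrderOf (F a))
          (fun h1 => hFa (AddMonoid.addOrderOf_eq_one_iff.1 h1))
        obtain ⟨J, hJs, hJ⟩ := Finset.exists_subset_card_eq
          (s := Finset.univ.filter fun i => a i ≠ 0) (n := r + 1) (by omega)
        obtain ⟨ν, h1, h2, i0, hi0, h3⟩ := dep' he hp J hJ (fun i => (a i : X))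
        let ρ : ∀ i, A i := fun i => ν i • a i
        have hρ : Φ ρ = 0 := by
          rw [hΦ, ← h2]
          rfl
        have hρF : F ρ = 0 := by
          refine ih _ ?_ ρ hρ rfl
          refine lt_of_le_of_lt (Finset.card_le_card (t := J) ?_) (by omega)
          intro i hi
          rw [Finset.mem_filter] at hi
          by_contra hiJ
          exact hi.2 (by simp only [ρ, h1 i hiJ, zero_smul])
        have h4 : F (ν i0 • a - ρ) = 0 := by
          refine ih _ ?_ (ν i0 • a - ρ) (by rw [map_sub, map_smul, ha, hρ]; simp) rfl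
          rw [← hn]
          apply Finset.card_lt_card
          rw [Finset.ssubset_iff_of_subset]
          · refine ⟨i0, hJs hi0, ?_⟩
            simp [ρ]
          · intro i hi
            rw [Finset.mem_filter] at hi ⊢
            refine ⟨Finset.mem_univ _, fun h5 => hi.2 ?_⟩
            simp [ρ, h5]
        rw [map_sub, hρF, sub_zero, map_smul] at h4
        apply h3
        have h5 : (addOrderOf (F a) : ℤ) ∣ ν i0 := addOrderOf_dvd_iff_zsmul_eq_zero.2 h4
        exact (Int.natCast_dvd_natCast.2 hpd).trans h5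
      · obtain ⟨φ, hφ⟩ := h (Finset.univ.filter fun i => a i ≠ 0) (by omega)
        rw [hF]
        have h1 : ∀ i, c i (a i) = φ (a i) := by
          intro i
          by_cases hi : a i = 0
          · rw [hi, map_zero, Submodule.coe_zero, map_zero]
          · exact (hφ i (Finset.mem_filter.2 ⟨Finset.mem_univ _, hi⟩) (a i)).symm
        rw [Finset.sum_congr rfl fun i _ => h1 i, ← map_sum, ← hΦ, ha, map_zero]
  have hker : LinearMap.ker Φ ≤ LinearMap.ker F := fun a ha => key _ a ha rfl
  let g : ((∀ i, A i) ⧸ LinearMap.ker Φ) →ₗ[ℤ] D := (LinearMap.ker Φ).liftQ F hker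
  let f : ((∀ i, A i) ⧸ LinearMap.ker Φ) →ₗ[ℤ] X := (LinearMap.ker Φ).liftQ Φ le_rfl
  have hf : Function.Injective f := by
    rw [← LinearMap.ker_eq_bot]
    exact Submodule.ker_liftQ_eq_bot _ _ _ le_rfl
  have hinj : Module.Injective ℤ D := Module.Baer.injective (Module.Baer.of_divisible D)
  obtain ⟨φ, hφ⟩ := hinj.out f hf g
  refine ⟨φ, fun i a => ?_⟩
  have h1 := hφ (Submodule.Quotient.mk (Pi.single i a))
  have h2 : f (Submodule.Quotient.mk (Pi.single i a)) = a := by
    change Φ (Pi.single i a) = a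
    rw [hΦ, Finset.sum_eq_single i]
    · simp
    · intro j _ hj
      simp [Pi.single_eq_of_ne hj]
    · intro h3; exact absurd (Finset.mem_univ _) h3
  have h3 : g (Submodule.Quotient.mk (Pi.single i a)) = c i a := by
    change F (Pi.single i a) = c i a
    rw [hF, Finset.sum_eq_single i]
    · simp
    · intro j _ hj
      simp [Pi.single_eq_of_ne hj]
    · intro h3; exact absurd (Finset.mem_univ _) h3
  rw [h2, h3] at h1
  exact h1

end Pool.Agent.X329.Helly
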