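import Pool.Agent.X329.Helly.Char

/-!
# The Helly dimension of diagonalizable groups
-/

set_option autoImplicit false

namespace Pool.Agent.X329.Helly

variable {K : Type} [Field K] {N : ℕ}

/-- `C` is a Zariski closed coset in `G`: `C = g H` with `g ∈ G` and a Zariski closed subgroup `H` of
`G`. -/
def ClosedCoset (G : Subgroup (Diag K N)) (C : Set (Diag K N)) : Prop :=
  ∃ g ∈ G, ∃ H : Subgroup (Diag K N), H ≤ G ∧ ZariskiClosed (H : Set (Diag K N)) ∧
    C = {x | ∃ h ∈ H, x = g * h}

/-- Whenever finitely many Zariski closed cosets in `G` have empty intersection, some subfamily of at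
most `d` of them has empty intersection. -/
def HellyProp (G : Subgroup (Diag K N)) (d : ℕ) : Prop :=
  ∀ (m : ℕ) (C : Fin m → Set (Diag K N)), (∀ i, ClosedCoset G (C i)) → (⋂ i, C i) = ∅ →
    ∃ J : Finset (Fin m), J.card ≤ d ∧ (⋂ i ∈ J, C i) = ∅

/-- The Helly dimension `κ(G)`: the least positive `d` with the property `HellyProp`. -/
noncomputable def kappa (G : Subgroup (Diag K N)) : ℕ := sInf {d | 1 ≤ d ∧ HellyProp G d}

/-- The minimal number of generators of a group. -/
noncomputable def rk (Y : Type) [Group Y] : ℕ :=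
  sInf {r | ∃ S : Finset Y, S.card = r ∧ Subgroup.closure (S : Set Y) = ⊤}

/-- evaluation at a point, additively -/
def evX (G : Subgroup (Diag K N)) (g : G) : Additive (X G) →ₗ[ℤ] Additive Kˣ :=
  (MonoidHom.toAdditive (evH G g)).toIntLinearMap

theorem evX_apply (G : Subgroup (Diag K N)) (g : G) (χ : X G) :
    evX G g (Additive.ofMul χ) = Additive.ofMul (χ.app g) := rfl

/-- the characters which are trivial on `H` -/
def ann (G H : Subgroup (Diag K N)) : Submodule ℤ (Additive (X G)) :=
  AddSubgroup.toIntSubmodule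
    { carrier := {χ | ∀ h : G, (h : Diag K N) ∈ H → evH G h χ.toMul = 1}
      add_mem' := fun {a b} ha hb h hh => by
        change evH G h (a.toMul * b.toMul) = 1
        rw [map_mul, ha h hh, hb h hh, one_mul]
      zero_mem' := fun h _ => rfl
      neg_mem' := fun {a} ha h hh => by
        change evH G h (a.toMul⁻¹) = 1
        rw [map_inv, ha h hh, inv_one] }

/-- **The duality**: every homomorphism `X(G) → Kˣ` is the evaluation at a point of `G`. -/
theorem exists_point {G : Subgroup (Diag K N)} (hG : ZariskiClosed (G : Set (Diag K N)))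
    (φ : Additive (X G) →ₗ[ℤ] Additive Kˣ) : ∃ x : G, φ = evX G x := by
  classical
  let x : Diag K N := fun i => (φ (Additive.ofMul (monX G (Pi.single i 1)))).toMul
  have hx : ∀ m : Fin N → ℤ, φ (Additive.ofMul (monX G m)) = Additive.ofMul (mon m x) := by
    intro m
    rw [monX_eq_prod, ofMul_prod, map_sum, mon_apply, ofMul_prod]
    refine Finset.sum_congr rfl fun i _ => ?_
    rw [ofMul_zpow, map_zsmul, ofMul_zpow]
    rfl
  have hxG : x ∈ G := by
    refine mem_of_mon hG fun m hm => ?_
    have h1 : monX G m = 1 := by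
      exact X.ext fun g => hm g g.2
    have h2 := hx m
    rw [h1, ofMul_one, map_zero] at h2
    exact (congrArg Additive.toMul h2).symm
  refine ⟨⟨x, hxG⟩, ?_⟩
  ext χ
  obtain ⟨m, hm⟩ := exists_monX G χ.toMul
  have h1 : χ = Additive.ofMul (monX G m) := by rw [← hm]; rfl
  rw [h1, hx]
  rfl

theorem mem_of_ann {G H : Subgroup (Diag K N)} (hHG : H ≤ G)
    (hH : ZariskiClosed (H : Set (Diag K N))) {y : G}
    (hy : ∀ χ ∈ ann G H, evX G y χ = 0) : (y : Diag K N) ∈ H := by
  refine mem_of_mon hH fun m hm => ?_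
  have h1 : Additive.ofMul (monX G m) ∈ ann G H := fun h hh => hm _ hh
  have h2 := hy _ h1
  exact congrArg Additive.toMul h2

/-- **The upper bound.** -/
theorem helly [IsAlgClosed K] {G : Subgroup (Diag K N)}
    (hG : ZariskiClosed (G : Set (Diag K N))) (S : Finset (X G))
    (hS : Subgroup.closure (S : Set (X G)) = ⊤) : HellyProp G (1 + S.card) := by
  classical
  intro m C hC hemp
  by_contra hcon
  push Not at hcon
  choose g hg H hHG hH hCi using hC
  -- the divisible group
  have hroot : ∀ {n : ℕ}, n ≠ 0 → Function.Surjective (fun a : Kˣ => a ^ n) := by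
    intro n hn a
    obtain ⟨z, hz⟩ := IsAlgClosed.exists_pow_nat_eq (a : K) (Nat.pos_of_ne_zero hn)
    have hz0 : z ≠ 0 := by
      rintro rfl
      rw [zero_pow hn] at hz
      exact a.ne_zero hz.symm
    exact ⟨Units.mk0 z hz0, Units.ext hz⟩
  letI hr1 : RootableBy Kˣ ℕ := rootableByOfPowLeftSurj Kˣ ℕ hroot
  letI hr2 : RootableBy Kˣ ℤ := Group.rootableByIntOfRootableByNat Kˣ
  letI hdiv : DivisibleBy (Additive Kˣ) ℤ :=
    { div := fun a n => Additive.ofMul (RootableBy.root a.toMul n)
      div_zero := fun a => by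
        change Additive.ofMul (RootableBy.root a.toMul (0 : ℤ)) = 0
        rw [RootableBy.root_zero]
        rfl
      div_cancel := fun {n} a hn => by
        change Additive.ofMul ((RootableBy.root a.toMul n) ^ n) = a
        rw [RootableBy.root_cancel _ hn]
        rfl }
  -- the generators
  let e : Fin S.card → Additive (X G) := fun j => Additive.ofMul ((S.equivFin.symm j : S) : X G)
  have he : Submodule.span ℤ (Set.range e) = ⊤ := by
    rw [eq_top_iff]
    intro χ _
    have h1 : χ.toMul ∈ Subgroup.closure (S : Set (X G)) := by rw [hS]; trivial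
    have h2 : ∀ ψ ∈ Subgroup.closure (S : Set (X G)),
        Additive.ofMul ψ ∈ Submodule.span ℤ (Set.range e) := by
      intro ψ hψ
      induction hψ using Subgroup.closure_induction with
      | mem ψ h =>
        refine Submodule.subset_span ⟨S.equivFin ⟨ψ, h⟩, ?_⟩
        simp [e]
      | one => exact Submodule.zero_mem _
      | mul a b _ _ ha hb => exact Submodule.add_mem _ ha hb
      | inv a _ ha => exact Submodule.neg_mem _ ha
    exact h2 _ h1
  obtain ⟨φ, hφ⟩ := glue he (fun i : Fin m => ann G (H i))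
    (fun i => (evX G ⟨g i, hg i⟩).comp (ann G (H i)).subtype) (by
      intro J hJ
      obtain ⟨x, hx⟩ := hcon J (by omega)
      have hx : ∀ i ∈ J, x ∈ C i := Set.mem_iInter₂.1 hx
      by_cases hJe : J.Nonempty
      · obtain ⟨i0, hi0⟩ := hJe
        have hxG : x ∈ G := by
          have := hx i0 hi0
          rw [hCi] at this
          obtain ⟨h, hh, rfl⟩ := this
          exact G.mul_mem (hg i0) (hHG i0 hh)
        refine ⟨evX G ⟨x, hxG⟩, fun i hi χ => ?_⟩
        have := hx i hi
        rw [hCi] at this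
        obtain ⟨h, hh, hxh⟩ := this
        have h1 : (⟨x, hxG⟩ : G) = ⟨g i, hg i⟩ * ⟨h, hHG i hh⟩ := Subtype.ext hxh
        have h2 : X.app χ.1.toMul ⟨h, hHG i hh⟩ = 1 := χ.2 ⟨h, hHG i hh⟩ hh
        change Additive.ofMul (X.app χ.1.toMul ⟨x, hxG⟩) =
          Additive.ofMul (X.app χ.1.toMul ⟨g i, hg i⟩)
        rw [h1, map_mul, h2, mul_one]
      · rw [Finset.not_nonempty_iff_eq_empty] at hJe
        subst hJe
        exact ⟨0, fun i hi => absurd hi (Finset.notMem_empty i)⟩)
  obtain ⟨x, rfl⟩ := exists_point hG φ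
  have hall : ∀ i, (x : Diag K N) ∈ C i := by
    intro i
    rw [hCi]
    have h1 : (((⟨g i, hg i⟩ : G)⁻¹ * x : G) : Diag K N) ∈ H i := by
      refine mem_of_ann (hHG i) (hH i) fun χ hχ => ?_
      have h2 := hφ i ⟨χ, hχ⟩
      change Additive.ofMul (X.app χ.toMul x) =
        Additive.ofMul (X.app χ.toMul ⟨g i, hg i⟩) at h2
      change Additive.ofMul (X.app χ.toMul ((⟨g i, hg i⟩ : G)⁻¹ * x)) = 0
      rw [map_mul, map_inv, ← Additive.ofMul.injective h2, inv_mul_cancel]
      rfl
    exact ⟨_, h1, by simp⟩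
  have h3 : (x : Diag K N) ∈ ⋂ i, C i := Set.mem_iInter.2 hall
  rw [hemp] at h3
  exact h3

theorem rk_mem (G : Subgroup (Diag K N)) :
    ∃ S : Finset (X G), S.card = rk (X G) ∧ Subgroup.closure (S : Set (X G)) = ⊤ := by
  classical
  have h1 : {r | ∃ S : Finset (X G), S.card = r ∧ Subgroup.closure (S : Set (X G)) = ⊤}.Nonempty := by
    refine ⟨_, Finset.univ.image fun i : Fin N => monX G (Pi.single i 1), rfl, ?_⟩
    rw [Finset.coe_image, Finset.coe_univ, Set.image_univ]
    exact closure_coords G
  exact Nat.sInf_mem h1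

end Pool.Agent.X329.Helly
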